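import Pool.Agent.Work.MP_b51559_nt.BG.T3.PW
import Pool.Agent.Work.MP_b51559_nt.TP.Defs

set_option autoImplicit false

/-!
# Block BG/T3 (three primes): from the kernel check to the finite inequality `NUMm`
-/

namespace MPb51559.BG.T3

open Finset Polynomial
open MPb51559.BG.D (dig_lt dig_get dig_mod corr)
open MPb51559.TP (bco Hn Qn NUMm)

/-! ### Runs -/

/-- squares of the values -/
def sq (l : List (ℕ × ℕ)) : List (ℕ × ℕ) := l.map fun p => (p.1, p.2 * p.2)

/-- the sum of a list of runs -/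
def rs : List (ℕ × ℕ) → ℕ
  | [] => 0
  | (len, v) :: r => len * v + rs r

/-- the values do not increase; `b` is a bound for the first one -/
def dec : ℕ → List (ℕ × ℕ) → Bool
  | _, [] => true
  | b, (_, v) :: r => Nat.ble v b && dec v r

theorem rl_sq (l : List (ℕ × ℕ)) : rl (sq l) = rl l := by
  induction l with
  | nil => rfl
  | cons p r ih =>
    obtain ⟨len, v⟩ := p
    show len + rl (sq r) = len + rl r
    rw [ih]

theorem rf_sq (l : List (ℕ × ℕ)) (i : ℕ) : rf (sq l) i = rf l i ^ 2 := by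
  induction l generalizing i with
  | nil => rfl
  | cons p r ih =>
    obtain ⟨len, v⟩ := p
    show (if i < len then v * v else rf (sq r) (i - len)) = (if i < len then v else rf r (i - len)) ^ 2
    split_ifs
    · ring
    · exact ih _

theorem rs_eq (l : List (ℕ × ℕ)) : ∑ i ∈ range (rl l), rf l i = rs l := by
  induction l with
  | nil => rfl
  | cons p r ih =>
    obtain ⟨len, v⟩ := p
    show ∑ i ∈ range (len + rl r), rf ((len, v) :: r) i = len * v + rs r
    rw [Finset.sum_range_add, ← ih]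
    congr 1
    · rw [Finset.sum_congr rfl (g := fun _ => v) fun i hi => by
        rw [rf, if_pos (Finset.mem_range.mp hi)]]
      simp
    · refine Finset.sum_congr rfl fun i _ => ?_
      rw [rf, if_neg (by omega)]
      congr 1
      omega

theorem rf_le_head (b : ℕ) (l : List (ℕ × ℕ)) (h : dec b l = true) (i : ℕ) : rf l i ≤ b := by
  induction l generalizing b i with
  | nil => exact Nat.zero_le _
  | cons p r ih =>
    obtain ⟨len, v⟩ := p
    rw [dec, Bool.and_eq_true] at h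
    have hv : v ≤ b := Nat.le_of_ble_eq_true h.1
    rw [rf]
    split_ifs
    · exact hv
    · exact (ih v h.2 _).trans hv

theorem rf_anti (b : ℕ) (l : List (ℕ × ℕ)) (h : dec b l = true) (i j : ℕ) (hij : i ≤ j) :
    rf l j ≤ rf l i := by
  induction l generalizing b i j with
  | nil => exact le_rfl
  | cons p r ih =>
    obtain ⟨len, v⟩ := p
    rw [dec, Bool.and_eq_true] at h
    by_cases hi : i < len
    · have e : rf ((len, v) :: r) i = v := by rw [rf, if_pos hi]
      rw [e, rf]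
      split_ifs
      · exact le_rfl
      · exact rf_le_head v r h.2 _
    · rw [rf, rf, if_neg hi, if_neg (by omega)]
      exact ih v h.2 _ _ (by omega)

/-! ### The power -/

/-- repeated squaring (`false`) and multiplication by the polynomial (`true`) with the given shifts;
`X` packed value, `M` digit sum, `e` error, `L` scale, `p` exponent -/
def run (D N Q MQ : ℕ) : List (Bool × ℕ) → ℕ → ℕ → ℕ → ℕ → (ℕ → ℕ → ℕ → Bool) → Bool
  | [], X, M, e, p, K => Nat.ble M ((1 <<< D) - 2) && K X e p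
  | (false, t) :: r, X, M, e, p, K => Nat.ble (M * M + 2) (1 <<< D) && Nat.ble t D &&
      run D N Q MQ r (mst D N t X X) (mst D N t X X % ((1 <<< D) - 1))
        (2 + (e * M + e * M + N * (e * e)) >>> t) (p + p) K
  | (true, t) :: r, X, M, e, p, K => Nat.ble (M * MQ + 2) (1 <<< D) && Nat.ble t D &&
      run D N Q MQ r (mst D N t X Q) (mst D N t X Q % ((1 <<< D) - 1))
        (2 + (e * MQ) >>> t) (p + 1) K

theorem run_ok {D N Q MQ : ℕ} (hD : 0 < D) {R : PowerSeries ℕ} (hQ : Ap D N R Q MQ 0 0)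
    (steps : List (Bool × ℕ)) {X M e L p : ℕ} (h : Ap D N (R ^ p) X M e L)
    (K : ℕ → ℕ → ℕ → Bool) (hr : run D N Q MQ steps X M e p K = true) :
    ∃ X' M' e' L' p', Ap D N (R ^ p') X' M' e' L' ∧ M' < 2 ^ D - 1 ∧ K X' e' p' = true := by
  induction steps generalizing X M e L p with
  | nil =>
    rw [run, Bool.and_eq_true] at hr
    have h1 := Nat.le_of_ble_eq_true hr.1
    rw [Nat.shiftLeft_eq, one_mul] at h1
    have h2 : 2 ≤ 2 ^ D := Nat.le_self_pow hD.ne' 2
    exact ⟨X, M, e, L, p, h, by omega, hr.2⟩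
  | cons s r ih =>
    obtain ⟨b, t⟩ := s
    cases b with
    | false =>
      rw [run, Bool.and_eq_true, Bool.and_eq_true] at hr
      obtain ⟨⟨h1, h2⟩, h3⟩ := hr
      have h1' := Nat.le_of_ble_eq_true h1
      have h2' := Nat.le_of_ble_eq_true h2
      rw [Nat.shiftLeft_eq, one_mul] at h1' h3
      have hM : M * M < 2 ^ D - 1 := by omega
      have hm := Ap.mul hD h2' h h hM
      rw [← pow_add] at hm
      rw [Nat.shiftRight_eq_div_pow] at h3
      exact ih hm h3
    | true =>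
      rw [run, Bool.and_eq_true, Bool.and_eq_true] at hr
      obtain ⟨⟨h1, h2⟩, h3⟩ := hr
      have h1' := Nat.le_of_ble_eq_true h1
      have h2' := Nat.le_of_ble_eq_true h2
      rw [Nat.shiftLeft_eq, one_mul] at h1' h3
      have hM : M * MQ < 2 ^ D - 1 := by omega
      have hm := Ap.mul hD h2' h hQ hM
      rw [← pow_succ] at hm
      have e1 : 0 * M + e * MQ + N * (e * 0) = e * MQ := by ring
      rw [e1] at hm
      rw [Nat.shiftRight_eq_div_pow] at h3
      exact ih hm h3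

/-! ### Marginals -/

theorem Hn_anti {Jm : ℕ} {c h : ℕ → ℕ} (hh : ∀ i j, i ≤ j → h j ≤ h i) {n n' : ℕ} (hn : n ≤ n') :
    Hn Jm c h n' ≤ Hn Jm c h n := by
  unfold Hn
  calc ∑ j ∈ range (Jm + 1 - n'), c j * h (n' + j)
      ≤ ∑ j ∈ range (Jm + 1 - n'), c j * h (n + j) :=
        Finset.sum_le_sum fun j _ => Nat.mul_le_mul_left _ (hh _ _ (by omega))
    _ ≤ _ := Finset.sum_le_sum_of_subset (Finset.range_mono (by omega))

theorem Qn_anti {Jm : ℕ} {c h : ℕ → ℕ} (hh : ∀ i j, i ≤ j → h j ≤ h i) {n n' : ℕ} (hn : n ≤ n') :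
    Qn Jm c h n' ≤ Qn Jm c h n := by
  unfold Qn
  calc ∑ j ∈ range (Jm + 1 - n'), c j ^ 2 * h (n' + j) ^ 2
      ≤ ∑ j ∈ range (Jm + 1 - n'), c j ^ 2 * h (n + j) ^ 2 :=
        Finset.sum_le_sum fun j _ => Nat.mul_le_mul_left _
          (Nat.pow_le_pow_left (hh _ _ (by omega)) 2)
    _ ≤ _ := Finset.sum_le_sum_of_subset (Finset.range_mono (by omega))

theorem blk {w G : ℕ} (hw : 0 < w) (c g : ℕ → ℕ) (m : ℕ) :
    ∑ j ∈ range (w * G - m * w), c j * g ((m * w + j) / w) =
      ∑ i ∈ range (G - m), bk w c i * g (m + i) := by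
  have e : w * G - m * w = (G - m) * w := by rw [Nat.sub_mul, mul_comm w G]
  rw [e, ← sum_bk w (G - m) (fun j => c j * g ((m * w + j) / w))]
  refine Finset.sum_congr rfl fun i _ => ?_
  unfold bk
  rw [Finset.sum_mul]
  refine Finset.sum_congr rfl fun r hr => ?_
  have hr' := Finset.mem_range.mp hr
  show c (i * w + r) * g ((m * w + (i * w + r)) / w) = c (i * w + r) * g (m + i)
  have e2 : m * w + (i * w + r) = r + (m + i) * w := by ring
  rw [e2, Nat.add_mul_div_right _ _ hw, Nat.div_eq_of_lt hr', zero_add]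

/-- digits -/
theorem digits_pkv (E n X : ℕ) (h : X < (2 ^ E) ^ n) :
    X = pkv E n (fun i => X / (2 ^ E) ^ i % 2 ^ E) := by
  induction n generalizing X with
  | zero => simp at h; simp [pkv, h]
  | succ n ih =>
    have h1 : X / 2 ^ E < (2 ^ E) ^ n := by
      rw [Nat.div_lt_iff_lt_mul (by positivity), ← pow_succ]
      exact h
    have h2 := ih _ h1
    have h3 : pkv E (n + 1) (fun i => X / (2 ^ E) ^ i % 2 ^ E) =
        X % 2 ^ E + 2 ^ E * pkv E n (fun i => X / 2 ^ E / (2 ^ E) ^ i % 2 ^ E) := by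
      unfold pkv
      rw [Finset.sum_range_succ', add_comm, Finset.mul_sum]
      congr 1
      · simp
      · refine Finset.sum_congr rfl fun i _ => ?_
        show X / (2 ^ E) ^ (i + 1) % 2 ^ E * (2 ^ E) ^ (i + 1) =
          2 ^ E * (X / 2 ^ E / (2 ^ E) ^ i % 2 ^ E * (2 ^ E) ^ i)
        rw [Nat.div_div_eq_div_mul, ← pow_succ']
        ring
    rw [h3, ← h2, add_comm]
    exact (Nat.div_add_mod X (2 ^ E)).symm

/-- correlation of block sums with a list of runs, digits above the place `2 ^ d - 1` -/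
def cor (D w E d : ℕ) (X V : ℕ) : ℕ := (bsR D w E d X * V) >>> (E * (2 ^ d - 1))

theorem cor_dig {D w E d : ℕ} {x v : ℕ → ℕ}
    (hx : ∀ i < w * 2 ^ d, x i < 2 ^ D) (hs : ∑ i ∈ range (w * 2 ^ d), x i < 2 ^ D - 1)
    (hb : (∑ i ∈ range (w * 2 ^ d), x i) * (∑ i ∈ range (2 ^ d), v i) < 2 ^ E) (m : ℕ)
    (hm : m < 2 ^ d) :
    cor D w E d (pkv D (w * 2 ^ d) x) (pkv E (2 ^ d) v) / (2 ^ E) ^ m % 2 ^ E =
      ∑ i ∈ range (2 ^ d - m), bk w x i * v (m + i) := by
  have hpos : 0 < 2 ^ d := by positivity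
  obtain ⟨J, hJ⟩ : ∃ J, 2 ^ d = J + 1 := ⟨2 ^ d - 1, by omega⟩
  have hsum : ∑ i ∈ range (J + 1), bk w x i = ∑ i ∈ range (w * 2 ^ d), x i := by
    rw [sum_bk, ← hJ, mul_comm]
  have hc := corr (2 ^ E) J (fun i => bk w x i) v m (by positivity) (by omega)
    (by rw [hsum, ← hJ]; exact hb)
  unfold cor
  rw [bsR_eq d hx hs, Nat.shiftRight_eq_div_pow, pow_mul]
  rw [← hJ] at hc
  have e1 : pkv E (2 ^ d) (fun m => bk w x (2 ^ d - 1 - m)) =
      ∑ i ∈ range (2 ^ d), bk w x (J - i) * (2 ^ E) ^ i := by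
    unfold pkv
    refine Finset.sum_congr rfl fun i _ => ?_
    show bk w x (2 ^ d - 1 - i) * (2 ^ E) ^ i = bk w x (J - i) * (2 ^ E) ^ i
    rw [show 2 ^ d - 1 = J by omega]
  have e2 : 2 ^ d - 1 = J := by omega
  rw [e1, e2]
  exact hc

/-! ### The check -/

/-- the complete check -/
def chk (D w E d m k N0 mJ nm : ℕ) (cR hR : List (ℕ × ℕ)) (steps : List (Bool × ℕ)) : Bool :=
  Nat.ble 1 D && Nat.ble 1 E && Nat.ble 1 w && Nat.beq (rl cR) (w * 2 ^ d) &&
  Nat.beq (rl hR) (2 ^ d) && dec (rs hR) hR &&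
  Nat.ble (rs cR + 2) (1 <<< D) && Nat.ble (rs (sq cR) + 2) (1 <<< D) &&
  Nat.ble (rs cR * rs hR + 1) (1 <<< E) && Nat.ble (rs (sq cR) * rs (sq hR) + 1) (1 <<< E) &&
  Nat.ble (mJ + 1) (2 ^ d) && Nat.ble (mJ * w + 2 * k + w * 2 ^ d) (2 * N0 + 3) &&
  run D (w * 2 ^ d) (pkr D nm (sq cR)) (rs (sq cR)) steps (pkr D nm (sq cR)) (rs (sq cR)) 0 1
    fun X e p => Nat.beq (p + 1) k &&
      Nat.ble (4 * m * N0 * fold D w E (fun s q => (s + w * e) * q) d X
          (cor D w E d (pkr D nm (sq cR)) (pkr E nm (sq hR)) &&& ((1 <<< (E * 2 ^ d)) - 1)) + 1)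
        (k * fold D w E (fun s q => s * (q * q)) d X
          ((cor D w E d (pkr D nm cR) (pkr E nm hR) >>> E) &&& ((1 <<< (E * mJ)) - 1)))

theorem mem_lt_sum {n : ℕ} {x : ℕ → ℕ} {b : ℕ} (h : ∑ i ∈ range n, x i < b) (i : ℕ) (hi : i < n) :
    x i < b :=
  lt_of_le_of_lt (Finset.single_le_sum (f := x) (fun _ _ => Nat.zero_le _)
    (Finset.mem_range.mpr hi)) h

theorem num_of {D w E d m k N0 mJ nm : ℕ} {cR hR : List (ℕ × ℕ)} {steps : List (Bool × ℕ)}
    (hchk : chk D w E d m k N0 mJ nm cR hR steps = true) :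
    NUMm m k N0 (w * 2 ^ d - 1) (rf cR) (fun n => rf hR (n / w)) := by
  simp only [chk, Bool.and_eq_true] at hchk
  obtain ⟨⟨⟨⟨⟨⟨⟨⟨⟨⟨⟨⟨c1, c2⟩, c3⟩, c4⟩, c5⟩, c6⟩, c7⟩, c8⟩, c9⟩, c10⟩, c11⟩, c12⟩, c13⟩ := hchk
  have hD : 0 < D := Nat.le_of_ble_eq_true c1
  have hE : 0 < E := Nat.le_of_ble_eq_true c2
  have hw : 0 < w := Nat.le_of_ble_eq_true c3
  have hrl : rl cR = w * 2 ^ d := Nat.eq_of_beq_eq_true c4
  have hrh : rl hR = 2 ^ d := Nat.eq_of_beq_eq_true c5
  have h7 := Nat.le_of_ble_eq_true c7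
  have h8 := Nat.le_of_ble_eq_true c8
  have h9 := Nat.le_of_ble_eq_true c9
  have h10 := Nat.le_of_ble_eq_true c10
  have h11 := Nat.le_of_ble_eq_true c11
  have h12 := Nat.le_of_ble_eq_true c12
  rw [Nat.shiftLeft_eq, one_mul] at h7 h8 h9 h10
  have hG : 0 < 2 ^ d := by positivity
  have hN : 0 < w * 2 ^ d := Nat.mul_pos hw hG
  set c : ℕ → ℕ := rf cR with hc
  set g : ℕ → ℕ := rf hR with hg
  set G : ℕ := 2 ^ d with hGd
  set N : ℕ := w * G with hNd
  -- sums
  have sc : ∑ i ∈ range N, c i < 2 ^ D - 1 := by rw [← hrl, rs_eq]; omega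
  have sq2 : ∑ i ∈ range N, rf (sq cR) i < 2 ^ D - 1 := by
    rw [← hrl, ← rl_sq cR, rs_eq]; omega
  have sh1 : (∑ i ∈ range N, c i) * (∑ i ∈ range G, g i) < 2 ^ E := by
    rw [← hrl, ← hrh, rs_eq, rs_eq]; omega
  have sh2 : (∑ i ∈ range N, rf (sq cR) i) * (∑ i ∈ range G, rf (sq hR) i) < 2 ^ E := by
    rw [← hrl, ← hrh, ← rl_sq cR, ← rl_sq hR, rs_eq, rs_eq]; omega
  have pC : pkr D nm cR = pkv D N c := by rw [pkr_eq hD, hrl]
  have pQ : pkr D nm (sq cR) = pkv D N (rf (sq cR)) := by rw [pkr_eq hD, rl_sq, hrl]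
  have pH : pkr E nm hR = pkv E G g := by rw [pkr_eq hE, hrh]
  have pH2 : pkr E nm (sq hR) = pkv E G (rf (sq hR)) := by rw [pkr_eq hE, rl_sq, hrh]
  -- the power
  set R : PowerSeries ℕ := PowerSeries.mk fun j => c j ^ 2 with hR'
  have hAp : Ap D N R (pkr D nm (sq cR)) (rs (sq cR)) 0 0 := by
    refine ⟨rf (sq cR), pQ, fun i hi => ?_, ?_, fun i _ => ?_⟩
    · have := mem_lt_sum sq2 i hi
      omega
    · rw [← rs_eq, rl_sq, hrl]
    · rw [hR', PowerSeries.coeff_mk, rf_sq]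
      simp [hc]
  obtain ⟨X, M, e, L, p, hX, hM, hK⟩ := run_ok hD hAp steps (p := 1) (by rw [pow_one]; exact hAp) _ c13
  rw [Bool.and_eq_true] at hK
  obtain ⟨k1, k2⟩ := hK
  have hp : p + 1 = k := Nat.eq_of_beq_eq_true k1
  have hfin := Nat.le_of_ble_eq_true k2
  obtain ⟨x, rfl, hx, hxM, hxR⟩ := hX
  have hxs : ∑ i ∈ range N, x i < 2 ^ D - 1 := by rw [hxM]; exact hM
  have hkp : k - 1 = p := by omega
  -- the digits of the marginals
  have hcD : ∀ i < N, c i < 2 ^ D := fun i hi => by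
    have := mem_lt_sum sc i hi
    omega
  have hqD : ∀ i < N, rf (sq cR) i < 2 ^ D := fun i hi => by
    have := mem_lt_sum sq2 i hi
    omega
  rw [pC, pQ, pH, pH2] at hfin
  set CH : ℕ := cor D w E d (pkv D N c) (pkv E G g) with hCH
  set CQ : ℕ := cor D w E d (pkv D N (rf (sq cR))) (pkv E G (rf (sq hR))) with hCQ
  have dH : ∀ m' < G, CH / (2 ^ E) ^ m' % 2 ^ E = ∑ i ∈ range (G - m'), bk w c i * g (m' + i) :=
    fun m' hm' => cor_dig hcD sc sh1 m' hm'
  have dQ : ∀ m' < G, CQ / (2 ^ E) ^ m' % 2 ^ E =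
      ∑ i ∈ range (G - m'), bk w (rf (sq cR)) i * rf (sq hR) (m' + i) :=
    fun m' hm' => cor_dig hqD sq2 sh2 m' hm'
  -- values of the marginals at block ends
  have hJ1 : N - 1 + 1 = N := by omega
  have vH : ∀ m' < G, Hn (N - 1) c (fun n => g (n / w)) (m' * w) = CH / (2 ^ E) ^ m' % 2 ^ E := by
    intro m' hm'
    rw [dH m' hm', ← blk hw c g m']
    unfold Hn
    rw [hJ1]
  have vQ : ∀ m' < G, Qn (N - 1) c (fun n => g (n / w)) (m' * w) = CQ / (2 ^ E) ^ m' % 2 ^ E := by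
    intro m' hm'
    rw [dQ m' hm', ← blk hw (rf (sq cR)) (rf (sq hR)) m']
    unfold Qn
    rw [hJ1]
    refine Finset.sum_congr rfl fun j _ => ?_
    rw [rf_sq, rf_sq]
  have ganti : ∀ i j, i ≤ j → g (j / w) ≤ g (i / w) := fun i j hij =>
    rf_anti _ hR c6 _ _ (Nat.div_le_div_right hij)
  -- the packed numbers
  have eQ : CQ &&& ((1 <<< (E * G)) - 1) = pkv E G (fun m' => CQ / (2 ^ E) ^ m' % 2 ^ E) := by
    rw [and_mask, pow_mul]
    have hlt : CQ % (2 ^ E) ^ G < (2 ^ E) ^ G := Nat.mod_lt _ (by positivity)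
    rw [digits_pkv E G _ hlt]
    exact pkv_congr fun i hi => dig_mod _ _ _ _ hi
  have eH : (CH >>> E) &&& ((1 <<< (E * mJ)) - 1) =
      pkv E G (fun m' => if m' < mJ then CH / (2 ^ E) ^ (m' + 1) % 2 ^ E else 0) := by
    rw [and_mask, pow_mul, Nat.shiftRight_eq_div_pow]
    have hlt : CH / 2 ^ E % (2 ^ E) ^ mJ < (2 ^ E) ^ mJ := Nat.mod_lt _ (by positivity)
    have h1 : CH / 2 ^ E % (2 ^ E) ^ mJ =
        pkv E mJ (fun m' => CH / (2 ^ E) ^ (m' + 1) % 2 ^ E) := by
      rw [digits_pkv E mJ _ hlt]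
      refine pkv_congr fun i hi => ?_
      rw [dig_mod _ _ _ _ hi, Nat.div_div_eq_div_mul, ← pow_succ']
    rw [h1]
    obtain ⟨a, ha⟩ : ∃ a, G = mJ + a := ⟨G - mJ, by omega⟩
    rw [ha, ← pkv_glue]
    have h2 : pkv E a (fun i => if mJ + i < mJ then CH / (2 ^ E) ^ (mJ + i + 1) % 2 ^ E else 0) =
        0 := by
      unfold pkv
      refine Finset.sum_eq_zero fun i _ => ?_
      show (if mJ + i < mJ then CH / (2 ^ E) ^ (mJ + i + 1) % 2 ^ E else 0) * (2 ^ E) ^ i = 0
      rw [if_neg (by omega), zero_mul]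
    rw [h2, zero_mul, add_zero]
    refine pkv_congr fun i hi => ?_
    rw [if_pos hi]
  have hyQ : ∀ i < G, CQ / (2 ^ E) ^ i % 2 ^ E < 2 ^ E := fun i _ => Nat.mod_lt _ (by positivity)
  have hyH : ∀ i < G, (if i < mJ then CH / (2 ^ E) ^ (i + 1) % 2 ^ E else 0) < 2 ^ E := by
    intro i _
    split_ifs
    · exact Nat.mod_lt _ (by positivity)
    · positivity
  rw [eQ, eH, fold_eq _ d hx hyQ hxs, fold_eq _ d hx hyH hxs] at hfin
  -- upper bound on the left
  have left : ∑ n ∈ range N, bco c (k - 1) n * Qn (N - 1) c (fun n => g (n / w)) n ≤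
      (∑ m' ∈ range G, (bk w x m' + w * e) * (CQ / (2 ^ E) ^ m' % 2 ^ E)) * 2 ^ L := by
    have e1 : N = G * w := by rw [hNd, mul_comm]
    rw [e1, ← sum_bk, Finset.sum_mul]
    refine Finset.sum_le_sum fun m' hm' => ?_
    have hm'' := Finset.mem_range.mp hm'
    rw [← e1, ← vQ m' hm'']
    unfold bk
    calc ∑ r ∈ range w, bco c (k - 1) (m' * w + r) *
          Qn (N - 1) c (fun n => g (n / w)) (m' * w + r)
        ≤ ∑ r ∈ range w, (x (m' * w + r) + e) * 2 ^ L *
          Qn (N - 1) c (fun n => g (n / w)) (m' * w) := by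
          refine Finset.sum_le_sum fun r hr => ?_
          have hr' := Finset.mem_range.mp hr
          have hlt : m' * w + r < N := by
            have : (m' + 1) * w ≤ G * w := Nat.mul_le_mul_right _ hm''
            rw [e1]
            nlinarith
          refine Nat.mul_le_mul ?_ (Qn_anti ganti (by omega))
          unfold bco
          rw [hkp]
          exact (hxR _ hlt).2
      _ = _ := by
          rw [← Finset.sum_mul, ← Finset.sum_mul, Finset.sum_add_distrib, Finset.sum_const,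
            Finset.card_range, smul_eq_mul]
          ring
  -- lower bound on the right
  have right : (∑ m' ∈ range G, bk w x m' *
      ((if m' < mJ then CH / (2 ^ E) ^ (m' + 1) % 2 ^ E else 0) *
        (if m' < mJ then CH / (2 ^ E) ^ (m' + 1) % 2 ^ E else 0))) * 2 ^ L ≤
      ∑ n ∈ range (2 * N0 - 2 * k + 2 - (N - 1)),
        bco c (k - 1) n * Hn (N - 1) c (fun n => g (n / w)) n ^ 2 := by
    have e1 : N = G * w := by rw [hNd, mul_comm]
    have hmJ : mJ * w ≤ 2 * N0 - 2 * k + 2 - (N - 1) := by omega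
    calc _ = ∑ m' ∈ range mJ, bk w x m' * (CH / (2 ^ E) ^ (m' + 1) % 2 ^ E) ^ 2 * 2 ^ L := by
          obtain ⟨a, ha⟩ : ∃ a, G = mJ + a := ⟨G - mJ, by omega⟩
          rw [ha, Finset.sum_range_add]
          have h2 : ∑ i ∈ range a, bk w x (mJ + i) *
              ((if mJ + i < mJ then CH / (2 ^ E) ^ (mJ + i + 1) % 2 ^ E else 0) *
              (if mJ + i < mJ then CH / (2 ^ E) ^ (mJ + i + 1) % 2 ^ E else 0)) = 0 := by
            refine Finset.sum_eq_zero fun i _ => ?_
            rw [if_neg (by omega), mul_zero, mul_zero]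
          rw [add_mul, h2, zero_mul, add_zero, Finset.sum_mul]
          refine Finset.sum_congr rfl fun m' hm' => ?_
          rw [if_pos (Finset.mem_range.mp hm')]
          ring
      _ ≤ ∑ n ∈ range (mJ * w), bco c (k - 1) n *
            Hn (N - 1) c (fun n => g (n / w)) n ^ 2 := by
          rw [← sum_bk]
          refine Finset.sum_le_sum fun m' hm' => ?_
          have hm'' := Finset.mem_range.mp hm'
          rw [← vH (m' + 1) (by omega)]
          unfold bk
          rw [Finset.sum_mul, Finset.sum_mul]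
          refine Finset.sum_le_sum fun r hr => ?_
          have hr' := Finset.mem_range.mp hr
          have hlt : m' * w + r < N := by
            have : (m' + 1) * w ≤ G * w := Nat.mul_le_mul_right _ (by omega)
            rw [e1]
            nlinarith
          have h1 : Hn (N - 1) c (fun n => g (n / w)) ((m' + 1) * w) ≤
              Hn (N - 1) c (fun n => g (n / w)) (m' * w + r) :=
            Hn_anti ganti (by nlinarith)
          have h2 : x (m' * w + r) * 2 ^ L ≤ bco c (k - 1) (m' * w + r) := by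
            unfold bco
            rw [hkp]
            exact (hxR _ hlt).1
          calc x (m' * w + r) * Hn (N - 1) c (fun n => g (n / w)) ((m' + 1) * w) ^ 2 * 2 ^ L
              = (x (m' * w + r) * 2 ^ L) *
                Hn (N - 1) c (fun n => g (n / w)) ((m' + 1) * w) ^ 2 := by ring
            _ ≤ _ := Nat.mul_le_mul h2 (Nat.pow_le_pow_left h1 2)
      _ ≤ _ := Finset.sum_le_sum_of_subset (Finset.range_mono hmJ)
  unfold NUMm
  rw [hJ1]
  calc 4 * m * N0 * ∑ n ∈ range N, bco c (k - 1) n * Qn (N - 1) c (fun n => g (n / w)) n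
      ≤ 4 * m * N0 * ((∑ m' ∈ range G, (bk w x m' + w * e) *
          (CQ / (2 ^ E) ^ m' % 2 ^ E)) * 2 ^ L) := Nat.mul_le_mul_left _ left
    _ = (4 * m * N0 * ∑ m' ∈ range G, (bk w x m' + w * e) *
          (CQ / (2 ^ E) ^ m' % 2 ^ E)) * 2 ^ L := by ring
    _ < (k * ∑ m' ∈ range G, bk w x m' *
          ((if m' < mJ then CH / (2 ^ E) ^ (m' + 1) % 2 ^ E else 0) *
            (if m' < mJ then CH / (2 ^ E) ^ (m' + 1) % 2 ^ E else 0))) * 2 ^ L :=
        Nat.mul_lt_mul_of_pos_right hfin (by positivity)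
    _ = k * ((∑ m' ∈ range G, bk w x m' *
          ((if m' < mJ then CH / (2 ^ E) ^ (m' + 1) % 2 ^ E else 0) *
            (if m' < mJ then CH / (2 ^ E) ^ (m' + 1) % 2 ^ E else 0))) * 2 ^ L) := by ring
    _ ≤ _ := Nat.mul_le_mul_left _ right

end MPb51559.BG.T3
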