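import Pool.Agent.Work.MP_b51559_nt.BG.D.K1

set_option autoImplicit false

/-!
# Block BG/T3 (three primes): powers of polynomials in packed arithmetic with rounding
-/

namespace MPb51559.BG.T3

open Finset Polynomial
open MPb51559.BG.D (dig_lt dig_get dig_mod dig_poly coeff_le_eval_one)

/-- the number with the digits `x i`, `i < N`, in base `2 ^ D` -/
def pkv (D N : ℕ) (x : ℕ → ℕ) : ℕ := ∑ i ∈ range N, x i * (2 ^ D) ^ i

/-- the mask which keeps the low `D - t` bits of each of the first `N` digits -/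
def msk (D N t : ℕ) : ℕ := ((1 <<< (D * N)) - 1) / ((1 <<< D) - 1) * ((1 <<< (D - t)) - 1)

/-- product, shift, truncation -/
def mst (D N t X Y : ℕ) : ℕ := ((X * Y) >>> t) &&& msk D N t

theorem pkv_lt {D N : ℕ} {x : ℕ → ℕ} (hx : ∀ i < N, x i < 2 ^ D) : pkv D N x < (2 ^ D) ^ N :=
  dig_lt _ _ _ hx

theorem pkv_congr {D N : ℕ} {x y : ℕ → ℕ} (h : ∀ i < N, x i = y i) : pkv D N x = pkv D N y :=
  Finset.sum_congr rfl fun i hi => by rw [h i (Finset.mem_range.mp hi)]

theorem tb {D N : ℕ} {x : ℕ → ℕ} (hx : ∀ i < N, x i < 2 ^ D) (i r : ℕ) (hr : r < D) :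
    (pkv D N x).testBit (D * i + r) = (decide (i < N) && (x i).testBit r) := by
  by_cases hi : i < N
  · have h1 : pkv D N x / (2 ^ D) ^ i % 2 ^ D = x i := dig_get _ _ _ _ (by positivity) hx hi
    rw [← pow_mul] at h1
    have h2 : (pkv D N x / 2 ^ (D * i) % 2 ^ D).testBit r = (pkv D N x).testBit (D * i + r) := by
      rw [Nat.testBit_mod_two_pow, Nat.testBit_div_two_pow]
      simp [hr, add_comm]
    rw [← h2, h1]
    simp [hi]
  · have h1 := pkv_lt hx
    rw [← pow_mul] at h1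
    have h2 : pkv D N x < 2 ^ (D * i + r) := by
      refine lt_of_lt_of_le h1 (Nat.pow_le_pow_right (by norm_num) ?_)
      have : D * N ≤ D * i := Nat.mul_le_mul_left _ (not_lt.mp hi)
      omega
    rw [Nat.testBit_lt_two_pow h2]
    simp [hi]

theorem msk_eq {D N t : ℕ} (hD : 0 < D) : msk D N t = pkv D N (fun _ => 2 ^ (D - t) - 1) := by
  unfold msk pkv
  rw [Nat.shiftLeft_eq, Nat.shiftLeft_eq, Nat.shiftLeft_eq, one_mul, one_mul, one_mul,
    ← Finset.mul_sum, pow_mul, Nat.geomSum_eq (Nat.le_self_pow hD.ne' 2), mul_comm]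

/-- shift and mask act digit by digit -/
theorem shift_mask {D N N' t : ℕ} {y : ℕ → ℕ} (hD : 0 < D) (ht : t ≤ D) (hN : N ≤ N')
    (hy : ∀ i < N', y i < 2 ^ D) :
    (pkv D N' y >>> t) &&& msk D N t = pkv D N (fun i => y i / 2 ^ t) := by
  have hz : ∀ i < N, y i / 2 ^ t < 2 ^ D := fun i hi =>
    lt_of_le_of_lt (Nat.div_le_self _ _) (hy i (by omega))
  have hm : ∀ i < N, (fun _ : ℕ => 2 ^ (D - t) - 1) i < 2 ^ D := fun i _ => by
    show 2 ^ (D - t) - 1 < 2 ^ D
    have h1 : 2 ^ (D - t) ≤ 2 ^ D := Nat.pow_le_pow_right (by norm_num) (by omega)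
    have h2 : 0 < 2 ^ (D - t) := by positivity
    omega
  refine Nat.eq_of_testBit_eq fun p => ?_
  obtain ⟨i, r, hr, rfl⟩ : ∃ i r, r < D ∧ p = D * i + r :=
    ⟨p / D, p % D, Nat.mod_lt _ hD, (Nat.div_add_mod p D).symm⟩
  rw [Nat.testBit_land, Nat.testBit_shiftRight, msk_eq hD, tb hm i r hr, tb hz i r hr,
    Nat.testBit_two_pow_sub_one, Nat.testBit_div_two_pow]
  by_cases hi : i < N
  · by_cases h : r < D - t
    · have e : t + (D * i + r) = D * i + (r + t) := by ring
      rw [e, tb hy i (r + t) (by omega)]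
      simp [hi, h, show i < N' by omega]
    · have h3 : (y i).testBit (r + t) = false := by
        apply Nat.testBit_lt_two_pow
        exact lt_of_lt_of_le (hy i (by omega)) (Nat.pow_le_pow_right (by norm_num) (by omega))
      simp [h, h3]
  · simp [hi]

/-- the sum of the digits is the residue modulo the base minus one -/
theorem pkv_mod {D N : ℕ} {x : ℕ → ℕ} (h : ∑ i ∈ range N, x i < 2 ^ D - 1) :
    pkv D N x % (2 ^ D - 1) = ∑ i ∈ range N, x i := by
  have h1 : pkv D N x ≡ ∑ i ∈ range N, x i [MOD 2 ^ D - 1] := by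
    unfold pkv
    refine Nat.ModEq.symm ?_
    have h2 : ∀ i ∈ range N, x i ≡ x i * (2 ^ D) ^ i [MOD 2 ^ D - 1] := by
      intro i _
      have h3 : 2 ^ D ≡ 1 [MOD 2 ^ D - 1] := by
        have h4 : 1 ≤ 2 ^ D := Nat.one_le_two_pow
        have h5 : 1 + (2 ^ D - 1) = 2 ^ D := by omega
        have h6 : 1 + (2 ^ D - 1) ≡ 1 [MOD 2 ^ D - 1] := by simp [Nat.ModEq]
        rwa [h5] at h6
      have h7 := (h3.pow i).mul_left (x i)
      rw [one_pow, mul_one] at h7
      exact h7.symm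
    exact Nat.ModEq.sum h2
  rw [h1, Nat.mod_eq_of_lt h]

/-- the polynomial with the digits as coefficients -/
noncomputable def pol (N : ℕ) (x : ℕ → ℕ) : ℕ[X] := ∑ i ∈ range N, C (x i) * X ^ i

theorem pol_eval (N : ℕ) (x : ℕ → ℕ) (b : ℕ) : (pol N x).eval b = ∑ i ∈ range N, x i * b ^ i := by
  simp [pol, Polynomial.eval_finsetSum]

theorem pol_coeff (N : ℕ) (x : ℕ → ℕ) (i : ℕ) : (pol N x).coeff i = if i < N then x i else 0 := by
  simp [pol]

theorem pol_deg (N : ℕ) (x : ℕ → ℕ) (i : ℕ) (h : N ≤ i) : (pol N x).coeff i = 0 := by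
  rw [pol_coeff, if_neg (by omega)]

/-- the product of two packed numbers -/
theorem pkv_mul {D N : ℕ} {x y : ℕ → ℕ} :
    pkv D N x * pkv D N y = pkv D (2 * N) (fun i => (pol N x * pol N y).coeff i) := by
  have h1 : pkv D N x * pkv D N y = (pol N x * pol N y).eval (2 ^ D) := by
    rw [Polynomial.eval_mul, pol_eval, pol_eval]
    rfl
  rw [h1]
  have hdeg : (pol N x * pol N y).natDegree < 2 * N ∨ pol N x * pol N y = 0 := by
    by_cases hz : pol N x * pol N y = 0
    · exact Or.inr hz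
    · left
      have hx : pol N x ≠ 0 := fun h => hz (by rw [h, zero_mul])
      have hy : pol N y ≠ 0 := fun h => hz (by rw [h, mul_zero])
      have dx : (pol N x).natDegree < N := by
        by_contra hc
        exact hx (Polynomial.leadingCoeff_eq_zero.mp (pol_deg N x _ (not_lt.mp hc)))
      have dy : (pol N y).natDegree < N := by
        by_contra hc
        exact hy (Polynomial.leadingCoeff_eq_zero.mp (pol_deg N y _ (not_lt.mp hc)))
      have := Polynomial.natDegree_mul_le (p := pol N x) (q := pol N y)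
      omega
  rcases hdeg with hdeg | hz
  · rw [Polynomial.eval_eq_sum_range' hdeg]
    rfl
  · rw [hz]
    simp [pkv]

/-- `X` is a packed approximation from below of the first `N` coefficients of `R`, divided by
`2 ^ L`, with error at most `e`; the digit sum is at most `M` -/
def Ap (D N : ℕ) (R : PowerSeries ℕ) (X M e L : ℕ) : Prop :=
  ∃ x : ℕ → ℕ, X = pkv D N x ∧ (∀ i < N, x i < 2 ^ D) ∧ ∑ i ∈ range N, x i = M ∧
    ∀ i < N, x i * 2 ^ L ≤ PowerSeries.coeff i R ∧ PowerSeries.coeff i R ≤ (x i + e) * 2 ^ L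

theorem Ap.mul {D N t : ℕ} {R R' : PowerSeries ℕ} {X X' M M' e e' L L' : ℕ} (hD : 0 < D) (ht : t ≤ D)
    (h : Ap D N R X M e L) (h' : Ap D N R' X' M' e' L') (hM : M * M' < 2 ^ D - 1) :
    Ap D N (R * R') (mst D N t X X') (mst D N t X X' % (2 ^ D - 1))
      (2 + (e' * M + e * M' + N * (e * e')) / 2 ^ t) (L + L' + t) := by
  obtain ⟨x, rfl, hx, hxM, hxR⟩ := h
  obtain ⟨y, rfl, hy, hyM, hyR⟩ := h'
  set P := pol N x * pol N y with hP
  have hPsum : P.eval 1 = M * M' := by
    rw [hP, Polynomial.eval_mul, pol_eval, pol_eval]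
    simp only [one_pow, mul_one]
    rw [hxM, hyM]
  have hPlt : ∀ i, P.coeff i < 2 ^ D := fun i =>
    lt_of_le_of_lt (coeff_le_eval_one P i) (by rw [hPsum]; omega)
  have hmst : mst D N t (pkv D N x) (pkv D N y) = pkv D N (fun i => P.coeff i / 2 ^ t) := by
    unfold mst
    rw [pkv_mul]
    exact shift_mask hD ht (by omega) fun i _ => hPlt i
  have hsumle : ∑ i ∈ range N, P.coeff i ≤ M * M' := by
    rw [← hPsum, Polynomial.eval_eq_sum_range' (n := max N (P.natDegree + 1))
      (lt_of_lt_of_le (Nat.lt_succ_self _) (le_max_right _ _))]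
    simp only [one_pow, mul_one]
    exact Finset.sum_le_sum_of_subset (Finset.range_mono (le_max_left _ _))
  have hzsum : ∑ i ∈ range N, P.coeff i / 2 ^ t < 2 ^ D - 1 :=
    lt_of_le_of_lt ((Finset.sum_le_sum fun i _ => Nat.div_le_self _ _).trans hsumle) hM
  rw [hmst]
  refine ⟨fun i => P.coeff i / 2 ^ t, rfl,
    fun i _ => lt_of_le_of_lt (Nat.div_le_self _ _) (hPlt i), (pkv_mod hzsum).symm, ?_⟩
  intro i hi
  -- the coefficients as sums over the antidiagonal
  have c1 : P.coeff i = ∑ p ∈ antidiagonal i, x p.1 * y p.2 := by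
    rw [hP, Polynomial.coeff_mul]
    refine Finset.sum_congr rfl fun p hp => ?_
    have hp' := Finset.HasAntidiagonal.mem_antidiagonal.mp hp
    rw [pol_coeff, pol_coeff, if_pos (by omega), if_pos (by omega)]
  have c2 : PowerSeries.coeff i (R * R') = ∑ p ∈ antidiagonal i, PowerSeries.coeff p.1 R * PowerSeries.coeff p.2 R' :=
    PowerSeries.coeff_mul _ _ _
  have pw : (2 : ℕ) ^ (L + L' + t) = 2 ^ L * 2 ^ L' * 2 ^ t := by rw [pow_add, pow_add]
  constructor
  · show P.coeff i / 2 ^ t * 2 ^ (L + L' + t) ≤ PowerSeries.coeff i (R * R')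
    have h1 : P.coeff i / 2 ^ t * 2 ^ t ≤ P.coeff i := Nat.div_mul_le_self _ _
    have h2 : P.coeff i * (2 ^ L * 2 ^ L') ≤ PowerSeries.coeff i (R * R') := by
      rw [c1, c2, Finset.sum_mul]
      refine Finset.sum_le_sum fun p hp => ?_
      have hp' := Finset.HasAntidiagonal.mem_antidiagonal.mp hp
      have a1 := (hxR p.1 (by omega)).1
      have a2 := (hyR p.2 (by omega)).1
      calc x p.1 * y p.2 * (2 ^ L * 2 ^ L') = (x p.1 * 2 ^ L) * (y p.2 * 2 ^ L') := by ring
        _ ≤ _ := Nat.mul_le_mul a1 a2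
    calc P.coeff i / 2 ^ t * 2 ^ (L + L' + t)
        = (P.coeff i / 2 ^ t * 2 ^ t) * (2 ^ L * 2 ^ L') := by rw [pw]; ring
      _ ≤ P.coeff i * (2 ^ L * 2 ^ L') := Nat.mul_le_mul_right _ h1
      _ ≤ _ := h2
  · show PowerSeries.coeff i (R * R') ≤ (P.coeff i / 2 ^ t + (2 + (e' * M + e * M' + N * (e * e')) / 2 ^ t)) *
      2 ^ (L + L' + t)
    set A := e' * M + e * M' + N * (e * e') with hA
    have hcard : (antidiagonal i).card ≤ N := by
      rw [Finset.Nat.card_antidiagonal]; omega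
    have s1 : ∑ p ∈ antidiagonal i, x p.1 ≤ M := by
      rw [Finset.Nat.sum_antidiagonal_eq_sum_range_succ_mk, ← hxM]
      exact Finset.sum_le_sum_of_subset (Finset.range_mono (by omega))
    have s2 : ∑ p ∈ antidiagonal i, y p.2 ≤ M' := by
      rw [← Finset.Nat.sum_antidiagonal_swap, ]
      simp only [Prod.snd_swap]
      rw [Finset.Nat.sum_antidiagonal_eq_sum_range_succ_mk, ← hyM]
      exact Finset.sum_le_sum_of_subset (Finset.range_mono (by omega))
    have h2 : PowerSeries.coeff i (R * R') ≤ (P.coeff i + A) * (2 ^ L * 2 ^ L') := by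
      calc PowerSeries.coeff i (R * R')
          ≤ ∑ p ∈ antidiagonal i, (x p.1 * y p.2 + e' * x p.1 + e * y p.2 + e * e') *
              (2 ^ L * 2 ^ L') := by
            rw [c2]
            refine Finset.sum_le_sum fun p hp => ?_
            have hp' := Finset.HasAntidiagonal.mem_antidiagonal.mp hp
            have a1 := (hxR p.1 (by omega)).2
            have a2 := (hyR p.2 (by omega)).2
            calc _ ≤ ((x p.1 + e) * 2 ^ L) * ((y p.2 + e') * 2 ^ L') := Nat.mul_le_mul a1 a2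
              _ = _ := by ring
        _ = ((∑ p ∈ antidiagonal i, x p.1 * y p.2) + e' * (∑ p ∈ antidiagonal i, x p.1) +
              e * (∑ p ∈ antidiagonal i, y p.2) + (antidiagonal i).card * (e * e')) *
              (2 ^ L * 2 ^ L') := by
            rw [← Finset.sum_mul, Finset.sum_add_distrib, Finset.sum_add_distrib,
              Finset.sum_add_distrib, Finset.mul_sum, Finset.mul_sum, Finset.sum_const, smul_eq_mul]
        _ ≤ (P.coeff i + e' * M + e * M' + N * (e * e')) * (2 ^ L * 2 ^ L') := by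
            refine Nat.mul_le_mul_right _ ?_
            rw [c1]
            refine Nat.add_le_add (Nat.add_le_add (Nat.add_le_add le_rfl ?_) ?_) ?_
            · exact Nat.mul_le_mul_left _ s1
            · exact Nat.mul_le_mul_left _ s2
            · exact Nat.mul_le_mul_right _ hcard
        _ = (P.coeff i + A) * (2 ^ L * 2 ^ L') := by rw [hA]; ring
    have h3 : P.coeff i + A ≤ (P.coeff i / 2 ^ t + (2 + A / 2 ^ t)) * 2 ^ t := by
      have b1 := Nat.div_add_mod (P.coeff i) (2 ^ t)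
      have b2 := Nat.div_add_mod A (2 ^ t)
      have b3 : P.coeff i % 2 ^ t < 2 ^ t := Nat.mod_lt _ (by positivity)
      have b4 : A % 2 ^ t < 2 ^ t := Nat.mod_lt _ (by positivity)
      have b5 : (P.coeff i / 2 ^ t + (2 + A / 2 ^ t)) * 2 ^ t =
          2 ^ t * (P.coeff i / 2 ^ t) + 2 ^ t * (A / 2 ^ t) + 2 * 2 ^ t := by ring
      omega
    calc PowerSeries.coeff i (R * R') ≤ (P.coeff i + A) * (2 ^ L * 2 ^ L') := h2
      _ ≤ ((P.coeff i / 2 ^ t + (2 + A / 2 ^ t)) * 2 ^ t) * (2 ^ L * 2 ^ L') :=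
          Nat.mul_le_mul_right _ h3
      _ = _ := by rw [pw]; ring

/-! ### Trees -/

/-- fold over the blocks of `w` digits of `X` (the digit sums) and the digits of `H` -/
def fold (D w E : ℕ) (φ : ℕ → ℕ → ℕ) : ℕ → ℕ → ℕ → ℕ
  | 0, X, H => φ (X % ((1 <<< D) - 1)) H
  | d + 1, X, H =>
    fold D w E φ d (X &&& ((1 <<< (D * w * 2 ^ d)) - 1)) (H &&& ((1 <<< (E * 2 ^ d)) - 1)) +
      fold D w E φ d (X >>> (D * w * 2 ^ d)) (H >>> (E * 2 ^ d))

/-- the block sums, packed in reverse order -/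
def bsR (D w E : ℕ) : ℕ → ℕ → ℕ
  | 0, X => X % ((1 <<< D) - 1)
  | d + 1, X => bsR D w E d (X >>> (D * w * 2 ^ d)) +
      (bsR D w E d (X &&& ((1 <<< (D * w * 2 ^ d)) - 1))) <<< (E * 2 ^ d)

theorem and_mask (X n : ℕ) : X &&& ((1 <<< n) - 1) = X % 2 ^ n := by
  rw [Nat.shiftLeft_eq, one_mul, Nat.and_two_pow_sub_one_eq_mod]

theorem pkv_low {D a b : ℕ} {x : ℕ → ℕ} (hx : ∀ i < a, x i < 2 ^ D) :
    pkv D (a + b) x % 2 ^ (D * a) = pkv D a x := by
  have h : pkv D (a + b) x = pkv D a x + 2 ^ (D * a) * pkv D b (fun i => x (a + i)) := by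
    unfold pkv
    rw [Finset.sum_range_add, Finset.mul_sum]
    congr 1
    refine Finset.sum_congr rfl fun i _ => ?_
    rw [pow_add, ← pow_mul]
    ring
  have h2 := pkv_lt hx
  rw [← pow_mul] at h2
  rw [h, Nat.add_mul_mod_self_left, Nat.mod_eq_of_lt h2]

theorem pkv_high {D a b : ℕ} {x : ℕ → ℕ} (hx : ∀ i < a, x i < 2 ^ D) :
    pkv D (a + b) x / 2 ^ (D * a) = pkv D b (fun i => x (a + i)) := by
  have h : pkv D (a + b) x = pkv D a x + 2 ^ (D * a) * pkv D b (fun i => x (a + i)) := by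
    unfold pkv
    rw [Finset.sum_range_add, Finset.mul_sum]
    congr 1
    refine Finset.sum_congr rfl fun i _ => ?_
    rw [pow_add, ← pow_mul]
    ring
  have h2 := pkv_lt hx
  rw [← pow_mul] at h2
  rw [h, Nat.add_mul_div_left _ _ (by positivity), Nat.div_eq_of_lt h2, zero_add]

/-- the sum of a block -/
def bk (w : ℕ) (x : ℕ → ℕ) (m : ℕ) : ℕ := ∑ r ∈ range w, x (m * w + r)

theorem sum_bk (w n : ℕ) (x : ℕ → ℕ) : ∑ m ∈ range n, bk w x m = ∑ i ∈ range (n * w), x i := by
  induction n with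
  | zero => simp
  | succ n ih => rw [Finset.sum_range_succ, ih, Nat.succ_mul, Finset.sum_range_add]; rfl

theorem bk_shift (w a m : ℕ) (x : ℕ → ℕ) : bk w (fun i => x (w * a + i)) m = bk w x (a + m) := by
  unfold bk
  refine Finset.sum_congr rfl fun r _ => ?_
  show x (w * a + (m * w + r)) = x ((a + m) * w + r)
  congr 1
  ring

theorem fold_eq {D w E : ℕ} (φ : ℕ → ℕ → ℕ) (d : ℕ) {x y : ℕ → ℕ}
    (hx : ∀ i < w * 2 ^ d, x i < 2 ^ D) (hy : ∀ i < 2 ^ d, y i < 2 ^ E)
    (hs : ∑ i ∈ range (w * 2 ^ d), x i < 2 ^ D - 1) :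
    fold D w E φ d (pkv D (w * 2 ^ d) x) (pkv E (2 ^ d) y) =
      ∑ m ∈ range (2 ^ d), φ (bk w x m) (y m) := by
  induction d generalizing x y with
  | zero =>
    simp only [pow_zero, mul_one] at *
    rw [Finset.sum_range_one, fold, Nat.shiftLeft_eq, one_mul, pkv_mod hs]
    simp [pkv, bk]
  | succ d ih =>
    have e1 : w * 2 ^ (d + 1) = w * 2 ^ d + w * 2 ^ d := by ring
    have e2 : 2 ^ (d + 1) = 2 ^ d + 2 ^ d := by ring
    rw [e1] at hx hs
    rw [e2] at hy
    have hs' := hs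
    rw [Finset.sum_range_add] at hs'
    rw [fold, and_mask, and_mask, Nat.shiftRight_eq_div_pow, Nat.shiftRight_eq_div_pow, e1, e2,
      mul_assoc D w, pkv_low (fun i hi => hx i (by omega)), pkv_low (fun i hi => hy i (by omega)),
      pkv_high (fun i hi => hx i (by omega)), pkv_high (fun i hi => hy i (by omega)),
      ih (fun i hi => hx i (by omega)) (fun i hi => hy i (by omega)) (by omega),
      ih (x := fun i => x (w * 2 ^ d + i)) (fun i hi => hx _ (by omega))
        (fun i hi => hy _ (by omega)) (by omega),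
      Finset.sum_range_add]
    congr 1
    refine Finset.sum_congr rfl fun m _ => ?_
    rw [bk_shift]

theorem pkv_glue {E a b : ℕ} {u : ℕ → ℕ} :
    pkv E a u + pkv E b (fun i => u (a + i)) * 2 ^ (E * a) = pkv E (a + b) u := by
  unfold pkv
  rw [Finset.sum_range_add, Finset.sum_mul]
  congr 1
  refine Finset.sum_congr rfl fun i _ => ?_
  rw [pow_add, ← pow_mul]
  ring

theorem bsR_eq {D w E : ℕ} (d : ℕ) {x : ℕ → ℕ}
    (hx : ∀ i < w * 2 ^ d, x i < 2 ^ D)
    (hs : ∑ i ∈ range (w * 2 ^ d), x i < 2 ^ D - 1) :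
    bsR D w E d (pkv D (w * 2 ^ d) x) = pkv E (2 ^ d) (fun m => bk w x (2 ^ d - 1 - m)) := by
  induction d generalizing x with
  | zero =>
    simp only [pow_zero, mul_one] at *
    rw [bsR, Nat.shiftLeft_eq, one_mul, pkv_mod hs]
    simp [pkv, bk]
  | succ d ih =>
    have e1 : w * 2 ^ (d + 1) = w * 2 ^ d + w * 2 ^ d := by ring
    have e2 : 2 ^ (d + 1) = 2 ^ d + 2 ^ d := by ring
    rw [e1] at hx hs
    have hs' := hs
    rw [Finset.sum_range_add] at hs'
    have hpos : 0 < 2 ^ d := by positivity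
    rw [bsR, and_mask, Nat.shiftRight_eq_div_pow, Nat.shiftLeft_eq, e1, e2,
      mul_assoc D w, pkv_low (fun i hi => hx i (by omega)),
      pkv_high (fun i hi => hx i (by omega)),
      ih (fun i hi => hx i (by omega)) (by omega),
      ih (x := fun i => x (w * 2 ^ d + i)) (fun i hi => hx _ (by omega)) (by omega), ← pkv_glue]
    congr 1
    · refine pkv_congr fun i hi => ?_
      show bk w (fun i => x (w * 2 ^ d + i)) (2 ^ d - 1 - i) = bk w x (2 ^ d + 2 ^ d - 1 - i)
      rw [bk_shift]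
      congr 1
      omega
    · congr 1
      refine pkv_congr fun i hi => ?_
      show bk w x (2 ^ d - 1 - i) = bk w x (2 ^ d + 2 ^ d - 1 - (2 ^ d + i))
      congr 1
      omega

/-! ### Runs -/

/-- the function with the given runs -/
def rf : List (ℕ × ℕ) → ℕ → ℕ
  | [], _ => 0
  | (len, v) :: r, i => if i < len then v else rf r (i - len)

/-- total length -/
def rl : List (ℕ × ℕ) → ℕ
  | [] => 0
  | (len, _) :: r => len + rl r

/-- the value of a list of segments (length, packed number) -/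
def sv (D : ℕ) : List (ℕ × ℕ) → ℕ
  | [] => 0
  | (len, X) :: r => X + (sv D r) <<< (D * len)

/-- merge neighbouring segments -/
def cmb (D : ℕ) : List (ℕ × ℕ) → List (ℕ × ℕ)
  | (l1, X1) :: (l2, X2) :: r => (l1 + l2, X1 + X2 <<< (D * l1)) :: cmb D r
  | l => l

/-- merge `n` times -/
def cmbs (D : ℕ) : ℕ → List (ℕ × ℕ) → List (ℕ × ℕ)
  | 0, l => l
  | n + 1, l => cmbs D n (cmb D l)

/-- the segments of the runs -/
def seg (D : ℕ) (l : List (ℕ × ℕ)) : List (ℕ × ℕ) :=
  l.map fun p => (p.1, p.2 * (((1 <<< (D * p.1)) - 1) / ((1 <<< D) - 1)))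

/-- the packed number of the runs, with `n` merging rounds -/
def pkr (D n : ℕ) (l : List (ℕ × ℕ)) : ℕ := sv D (cmbs D n (seg D l))

theorem sv_cmb (D : ℕ) (l : List (ℕ × ℕ)) : sv D (cmb D l) = sv D l := by
  induction l using cmb.induct with
  | case1 l1 X1 l2 X2 r ih =>
    rw [cmb, sv, sv, sv, ih]
    simp only [Nat.shiftLeft_eq]
    rw [mul_add D l1 l2, pow_add]
    ring
  | case2 l h => rw [cmb]; exact h

theorem sv_cmbs (D n : ℕ) (l : List (ℕ × ℕ)) : sv D (cmbs D n l) = sv D l := by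
  induction n generalizing l with
  | zero => rfl
  | succ n ih => rw [cmbs, ih, sv_cmb]

theorem sv_seg {D : ℕ} (hD : 0 < D) (l : List (ℕ × ℕ)) : sv D (seg D l) = pkv D (rl l) (rf l) := by
  induction l with
  | nil => simp [seg, sv, pkv, rl]
  | cons p r ih =>
    obtain ⟨len, v⟩ := p
    have e : seg D ((len, v) :: r) =
        (len, v * (((1 <<< (D * len)) - 1) / ((1 <<< D) - 1))) :: seg D r := rfl
    rw [e, sv, ih, rl]
    simp only [Nat.shiftLeft_eq, one_mul]
    rw [← pkv_glue]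
    congr 1
    · rw [pow_mul, ← Nat.geomSum_eq (Nat.le_self_pow hD.ne' 2), Finset.mul_sum]
      refine Finset.sum_congr rfl fun i hi => ?_
      rw [rf, if_pos (Finset.mem_range.mp hi)]
    · congr 1
      refine pkv_congr fun i _ => ?_
      show rf r i = rf ((len, v) :: r) (len + i)
      rw [rf, if_neg (by omega)]
      congr 1
      omega

theorem pkr_eq {D n : ℕ} (hD : 0 < D) (l : List (ℕ × ℕ)) : pkr D n l = pkv D (rl l) (rf l) := by
  rw [pkr, sv_cmbs, sv_seg hD]

theorem rf_ge (l : List (ℕ × ℕ)) (i : ℕ) (h : rl l ≤ i) : rf l i = 0 := by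
  induction l generalizing i with
  | nil => rfl
  | cons p r ih =>
    obtain ⟨len, v⟩ := p
    rw [rl] at h
    rw [rf, if_neg (by omega)]
    exact ih _ (by omega)

end MPb51559.BG.T3
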